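import Pool.Agent.H77.PM.Targets

/-!
# Row DEN: from the enumerations of dense sets to all injective sequences
-/

set_option autoImplicit false

open Set Filter Topology

namespace Pool.Agent.H77.PM

/-- finite partial injections extend to permutations (as in H29/UV/PM) -/
theorem exists_perm_ext (E : Finset ℕ) (f : ℕ → ℕ) (hf : Set.InjOn f E) :
    ∃ σ : Equiv.Perm ℕ, ∀ a ∈ E, σ a = f a := by
  classical
  induction E using Finset.induction_on with
  | empty => exact ⟨1, fun a ha => absurd ha (Finset.notMem_empty a)⟩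
  | insert a E ha ih =>
    obtain ⟨σ, hσ⟩ := ih (hf.mono (by simp))
    refine ⟨Equiv.swap (σ a) (f a) * σ, fun b hb => ?_⟩
    rw [Equiv.Perm.mul_apply]
    rcases Finset.mem_insert.1 hb with rfl | hb'
    · exact Equiv.swap_apply_left _ _
    · have hne : b ≠ a := fun h => ha (h ▸ hb')
      rw [Equiv.swap_apply_of_ne_of_ne]
      · exact hσ b hb'
      · exact fun h => hne (σ.injective h)
      · rw [hσ b hb']
        exact fun h => hne (hf (by simp [hb']) (by simp) h)

/-- an approximation of the first `N` points -/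
theorem exists_approx {M : Type} [MetricSpace M] {p q : ℕ → M} {m : ℕ} {g₀ : Equiv.Perm ℕ}
    (hp : DenseRange p) (hq : Function.Injective q) (h : ∀ i < m, q i = p (g₀ i)) (N : ℕ)
    {ε : ℝ} (hε : 0 < ε) :
    ∃ g : Equiv.Perm ℕ, (∀ i < m, g i = g₀ i) ∧ ∀ i < N, dist (p (g i)) (q i) < ε := by
  classical
  -- a lower bound for the distances
  obtain ⟨δ, hδ, hδ'⟩ : ∃ δ : ℝ, 0 < δ ∧ ∀ i < max m N, ∀ j < max m N, i ≠ j →
      2 * δ ≤ dist (q i) (q j) := by
    let T : Finset (ℕ × ℕ) := ((Finset.range (max m N)) ×ˢ (Finset.range (max m N))).filter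
      fun t => t.1 ≠ t.2
    rcases T.eq_empty_or_nonempty with hT | hT
    · refine ⟨1, one_pos, fun i hi j hj hij => ?_⟩
      have : (i, j) ∈ T := by
        simp only [T, Finset.mem_filter, Finset.mem_product, Finset.mem_range]
        exact ⟨⟨hi, hj⟩, hij⟩
      rw [hT] at this
      exact absurd this (Finset.notMem_empty _)
    · obtain ⟨t, ht, hmin⟩ := T.exists_min_image (fun t => dist (q t.1) (q t.2)) hT
      refine ⟨dist (q t.1) (q t.2) / 2, ?_, fun i hi j hj hij => ?_⟩
      · have h1 : t.1 ≠ t.2 := (Finset.mem_filter.1 ht).2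
        exact half_pos (dist_pos.2 (hq.ne h1))
      · have : (i, j) ∈ T := by
          simp only [T, Finset.mem_filter, Finset.mem_product, Finset.mem_range]
          exact ⟨⟨hi, hj⟩, hij⟩
        have h2 := hmin _ this
        linarith
  have hδε : 0 < min δ ε := lt_min hδ hε
  have hch : ∀ i, ∃ n, dist (p n) (q i) < min δ ε := by
    intro i
    obtain ⟨n, hn⟩ := hp.exists_dist_lt (q i) hδε
    exact ⟨n, by rw [dist_comm]; exact hn⟩
  choose n hn using hch
  let f : ℕ → ℕ := fun i => if i < m then g₀ i else n i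
  have hf : ∀ i, dist (p (f i)) (q i) < min δ ε := by
    intro i
    by_cases hi : i < m
    · simp only [f, if_pos hi, h i hi, dist_self]
      exact hδε
    · simp only [f, if_neg hi]
      exact hn i
  have hinj : Set.InjOn f (Finset.range (max m N)) := by
    intro i hi j hj e
    by_contra hne
    have h1 := hδ' i (by simpa using hi) j (by simpa using hj) hne
    have h2 : dist (q i) (q j) ≤ dist (p (f i)) (q i) + dist (p (f j)) (q j) := by
      have := dist_triangle_left (q i) (q j) (p (f i))
      rw [e] at this ⊢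
      exact this
    have h3 := (hf i).trans_le (min_le_left _ _)
    have h4 := (hf j).trans_le (min_le_left _ _)
    linarith
  obtain ⟨g, hg⟩ := exists_perm_ext _ f hinj
  refine ⟨g, fun i hi => ?_, fun i hi => ?_⟩
  · rw [hg i (Finset.mem_range.2 (lt_max_of_lt_left hi))]
    simp only [f, if_pos hi]
  · rw [hg i (Finset.mem_range.2 (lt_max_of_lt_right hi))]
    exact (hf i).trans_le (min_le_right _ _)

theorem pf_DEN0 : T_DEN := by
  intro ι ar Z _ S p C m g₀ hp hC hg q hq hqp
  choose g hgm hgN using fun N : ℕ => exists_approx hp.2 hq hqp N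
    (Nat.one_div_pos_of_nat (α := ℝ) (n := N))
  have hlim : ∀ i, Tendsto (fun N => p (g N i)) atTop (𝓝 (q i)) := by
    intro i
    rw [tendsto_iff_dist_tendsto_zero]
    refine squeeze_zero' (Eventually.of_forall fun _ => dist_nonneg) ?_
      tendsto_one_div_add_atTop_nhds_zero_nat
    filter_upwards [eventually_gt_atTop i] with N hN
    exact (hgN N i hN).le
  have key : Tendsto (fun N => code S (p ∘ g N)) atTop (𝓝 (code S q)) := by
    refine Tendsto.prodMk_nhds ?_ ?_
    · refine tendsto_pi_nhds.2 fun i => tendsto_pi_nhds.2 fun j => ?_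
      exact (hlim i).dist (hlim j)
    · refine tendsto_pi_nhds.2 fun i => tendsto_pi_nhds.2 fun a => ?_
      exact ((S.cont i).tendsto _).comp (tendsto_pi_nhds.2 fun j => hlim (a j))
  exact hC.mem_of_tendsto key (Eventually.of_forall fun N => hg (g N) (hgm N))

end Pool.Agent.H77.PM
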