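import Pool.Agent.H77.PM.Targets

/-!
# Row SUBC: closed substructures
-/

set_option autoImplicit false

open Set Filter Topology

namespace Pool.Agent.H77.PM

theorem pf_SUBC0 : T_SUBC := by
  intro ι ar Z _ S q hq
  have hc : CompleteSpace (closure (range q)) := isClosed_closure.completeSpace_coe
  let T : MS ι ar Z :=
    { M := closure (range q)
      f := fun i a => S.f i (fun j => (a j).1)
      cont := fun i => (S.cont i).comp
        (continuous_pi fun j => continuous_subtype_val.comp (continuous_apply j)) }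
  let p : ℕ → T.M := fun j => ⟨q j, subset_closure (mem_range_self j)⟩
  refine ⟨T, p, ⟨fun i j h => hq (congrArg Subtype.val h), ?_⟩, rfl⟩
  intro x
  have hx : (x : S.M) ∈ closure (range q) := x.2
  rw [closure_subtype]
  have e : (Subtype.val '' range p : Set S.M) = range q := by
    ext y
    constructor
    · rintro ⟨_, ⟨j, rfl⟩, rfl⟩
      exact ⟨j, rfl⟩
    · rintro ⟨j, rfl⟩
      exact ⟨p j, ⟨j, rfl⟩, rfl⟩
  rw [e]
  exact hx

theorem pf_ISB0 (hTIL : T_TIL) : T_ISB := by
  intro ι ar Z _ r hr S x z g hx hz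
  let _ : MeasurableSpace Z := ⊤
  obtain ⟨h1, h2, _, _⟩ := hTIL ι ar Z r hr
  have hz' : z = til r hr (re x g.symm) := by
    rw [h2]
    funext a
    have := hz (g.symm ∘ a)
    rw [← this]
    congr 1
    funext i
    simp
  have hd : dec r z = re x g.symm := by rw [hz', h1]
  obtain ⟨p, hp, rfl⟩ := hx
  have hcode : IsCode S (dec r z) := by
    refine ⟨p ∘ g.symm, ⟨hp.1.comp g.symm.injective, ?_⟩, by rw [hd]; rfl⟩
    exact hp.2.comp g.symm.surjective.denseRange (by
      exact continuous_of_discreteTopology)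
  refine ⟨hcode, ⟨S, S, ⟨p, hp, rfl⟩, hcode, Equiv.refl _, fun _ _ => rfl, fun _ _ => rfl⟩, ?_⟩
  rw [hd]
  exact hz'

end Pool.Agent.H77.PM
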