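import Pool.Agent.H19.PM.ANA
import Pool.Agent.H61.PM.BAI
import Pool.Agent.H41.PM.CLF
import Pool.Agent.H78.PM.CLO
import Pool.Agent.H42.PM.CYL
import Pool.Agent.H35.PM.FAM
import Pool.Agent.H42.PM.FOUR
import Pool.Agent.H11.PM.INJ
import Pool.Agent.H4.PM.ISA
import Pool.Agent.H49.PM.ISL
import Pool.Agent.H7.PM.MEA
import Pool.Agent.H54.PM.MET
import Pool.Agent.H19.PM.MFD
import Pool.Agent.H63.PM.ONE
import Pool.Agent.H33.PM.PER
import Pool.Agent.H32.PM.REC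
import Pool.Agent.H19.PM.SAM
import Pool.Agent.H4.PM.SEL
import Pool.Agent.H32.PM.SEP
import Pool.Agent.H68.PM.SIG
import Pool.Agent.H77.PM.SUBC0
import Pool.Agent.H77.PM.DEN0
import Pool.Agent.H13.PM.THR
import Pool.Agent.H33.PM.TIL
import Pool.Agent.H6.PM.TLL
import Pool.Agent.H79.PM.TWO
import Pool.Agent.H71.FK.Asm
import Pool.Agent.H71.HCI.Subs
import Pool.Agent.H71.S2C.Named
import Pool.Agent.H72.UV.Final

/-!
# MP_5607ba_lc: classes of Polish metric structures: composition of the rows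
-/

set_option autoImplicit false

open Set

namespace Pool.Agent.H77.PM

theorem c_ANA : T_ANA := Pool.Agent.H19.PM.pf_ANA
theorem c_BAI : T_BAI := Pool.Agent.H61.PM.pf_BAI
theorem c_CLF : T_CLF := Pool.Agent.H41.PM.pf_CLF
theorem c_CLO : T_CLO := Pool.Agent.H78.PM.pf_CLO
theorem c_CYL : T_CYL := Pool.Agent.H42.PM.pf_CYL
theorem c_DEN : T_DEN := pf_DEN0
theorem c_INJ : T_INJ := Pool.Agent.H11.PM.pf_INJ
theorem c_MEA : T_MEA := Pool.Agent.H7.PM.pf_MEA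
theorem c_MET : T_MET := Pool.Agent.H54.PM.pf_MET
theorem c_MFD : T_MFD := Pool.Agent.H19.PM.pf_MFD
theorem c_REC : T_REC := Pool.Agent.H32.PM.pf_REC
theorem c_SAM : T_SAM := Pool.Agent.H19.PM.pf_SAM
theorem c_SEP : T_SEP := Pool.Agent.H32.PM.pf_SEP
theorem c_SUBC : T_SUBC := pf_SUBC0
theorem c_TIL : T_TIL := Pool.Agent.H33.PM.pf_TIL
theorem c_TLL : T_TLL := Pool.Agent.H6.PM.pf_TLL
theorem c_SEL : T_SEL := Pool.Agent.H4.PM.pf_SEL c_REC c_SEP c_CLO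
theorem c_FAM : T_FAM := Pool.Agent.H35.PM.pf_FAM c_SEL c_INJ
theorem c_PER : T_PER := Pool.Agent.H33.PM.pf_PER c_FAM c_SAM c_MEA
theorem c_ISA : T_ISA := Pool.Agent.H4.PM.pf_ISA c_SAM c_CLF
theorem c_ISB : T_ISB := pf_ISB0 c_TIL
theorem c_ISL : T_ISL := Pool.Agent.H49.PM.pf_ISL c_SAM c_CLF c_TLL
theorem c_ONE : T_ONE := Pool.Agent.H63.PM.pf_ONE c_PER c_TIL c_ISA c_ISB c_MFD c_ANA
theorem c_TWO : T_TWO := Pool.Agent.H79.PM.pf_TWO c_PER c_TIL c_ISA c_ISB c_ANA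
theorem c_THR : T_THR := Pool.Agent.H13.PM.pf_THR c_PER c_TIL c_ISA c_ISB c_CLF c_SUBC
theorem c_SIG : T_SIG := Pool.Agent.H68.PM.pf_SIG c_TLL c_CYL c_MET
theorem c_FOUR : T_FOUR := Pool.Agent.H42.PM.pf_FOUR c_PER c_SUBC c_TLL c_ISL c_BAI c_DEN c_SIG

/-- The discrete theorem, part (1). -/
theorem d1 (r : ℕ) : D1 r := fun _ _ _ X hX =>
  Pool.Agent.H41.HI.Hand.result_of_star (Pool.Agent.H71.FK.Asm.star r) X hX

/-- The discrete theorem, part (2). -/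
theorem d2 (r : ℕ) : D2 r := fun _ _ _ k Y hY =>
  Pool.Agent.H71.S2C.sigma_of_hereditary r (fun _ _ _ X' hX' h' =>
    Pool.Agent.H41.HI.Hand.hereditary_of_star (Pool.Agent.H71.FK.Asm.star r) X' hX' h') k Y
      (fun n => (hY n).1) (fun n => (hY n).2)

/-- The discrete theorem, part (3). -/
theorem d3 (r : ℕ) : D3 r := fun _ _ _ x =>
  Pool.Agent.H71.HCI.subs_dichotomy (Pool.Agent.H71.FK.Asm.star r) x

/-- The discrete theorem, part (4). -/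
theorem d4 : D4 := by
  intro C _ _ X hX hinv
  have hinv' : ∀ c ∈ X, ∀ g : Equiv.Perm ℕ, (fun l : List ℕ => c (l.map g)) ∈ X := by
    intro c hc g
    refine hinv c hc _ ⟨g.symm, fun l => ?_⟩
    simp
  rcases Pool.Agent.H72.UV.sigmaStmt C X hX hinv' with ⟨D, hD, h⟩ | ⟨f, hf, hfX, hne⟩
  · refine Or.inl ⟨D, hD, fun c hc => ?_⟩
    obtain ⟨d, hd, g, hg⟩ := h c hc
    exact ⟨d, hd, g, fun l => hg l⟩
  · exact Or.inr ⟨f, hf, hfX, fun x y hxy ⟨g, hg⟩ => hne x y hxy ⟨g, hg⟩⟩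

theorem p1 (r : ℕ) : P1 r := c_ONE r (d1 (r + 2))

theorem p2 (r : ℕ) : P2 r := c_TWO r (d2 (r + 2))

theorem p3 (r : ℕ) : P3 r := c_THR r (d3 (r + 2))

theorem p4 : P4 := c_FOUR d4

end Pool.Agent.H77.PM
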