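import Mathlib

/-!
# MP_5607ba_lc: hereditary classes of Polish metric structures. Definitions.

A Polish metric structure is a separable complete metric space `M` with continuous maps
`f i : M ^ (ar i) → Z`, `i ∈ ι`.  Its codes are given by the injective enumerations `p` of dense
subsets: the distances of the points `p i`, `p j` and the values of the maps at these points.
-/

set_option autoImplicit false

open Set Filter Topology

namespace Pool.Agent.H77.PM

/-- Complete metric structures (separable ones are those which have a code). -/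
structure MS (ι : Type) (ar : ι → ℕ) (Z : Type) [TopologicalSpace Z] where
  M : Type
  [metric : MetricSpace M]
  [complete : CompleteSpace M]
  f : (i : ι) → (Fin (ar i) → M) → Z
  cont : ∀ i, Continuous (f i)

attribute [instance] MS.metric MS.complete

/-- The space of codes. -/
abbrev Code (ι : Type) (ar : ι → ℕ) (Z : Type) : Type :=
  (ℕ → ℕ → ℝ) × ((i : ι) → (Fin (ar i) → ℕ) → Z)

/-- Reindexing of a code. -/
def re {ι : Type} {ar : ι → ℕ} {Z : Type} (x : Code ι ar Z) (g : ℕ → ℕ) : Code ι ar Z :=
  (fun i j => x.1 (g i) (g j), fun i a => x.2 i (g ∘ a))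

/-- The distances of the code `x` take finitely many values. -/
def FD {ι : Type} {ar : ι → ℕ} {Z : Type} (x : Code ι ar Z) : Prop :=
  {d : ℝ | ∃ i j, x.1 i j = d}.Finite

section code

variable {ι : Type} {ar : ι → ℕ} {Z : Type} [TopologicalSpace Z]

/-- The code of a sequence. -/
def code (S : MS ι ar Z) (p : ℕ → S.M) : Code ι ar Z :=
  (fun i j => dist (p i) (p j), fun i a => S.f i (p ∘ a))

/-- Injective enumerations of dense subsets. -/
def Enum (S : MS ι ar Z) (p : ℕ → S.M) : Prop := Function.Injective p ∧ DenseRange p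

/-- `x` is a code of `S`. -/
def IsCode (S : MS ι ar Z) (x : Code ι ar Z) : Prop := ∃ p, Enum S p ∧ x = code S p

/-- Isometries which preserve the maps. -/
def Iso (S T : MS ι ar Z) : Prop :=
  ∃ e : S.M ≃ T.M, (∀ a b, dist (e a) (e b) = dist a b) ∧ ∀ i a, T.f i (e ∘ a) = S.f i a

/-- `x` and `y` are codes of isomorphic structures. -/
def Same (x y : Code ι ar Z) : Prop := ∃ S T : MS ι ar Z, IsCode S x ∧ IsCode T y ∧ Iso S T

/-- The codes in `A` have only countably many isomorphism types. -/
def CountablyMany (A : Set (Code ι ar Z)) : Prop :=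
  ∃ D : Set (Code ι ar Z), D.Countable ∧ ∀ x ∈ A, ∃ y ∈ D, Same x y

/-- The codes in `A` have perfectly many isomorphism types. -/
def PerfectlyMany [MeasurableSpace Z] (A : Set (Code ι ar Z)) : Prop :=
  ∃ F : (ℕ → Bool) → Code ι ar Z, Measurable F ∧ (∀ u, F u ∈ A) ∧
    ∀ u v, u ≠ v → ¬ Same (F u) (F v)

/-- The codes of the infinite closed substructures of the structure with the code `x`. -/
def Sub (x : Code ι ar Z) : Set (Code ι ar Z) :=
  {y | ∃ (S : MS ι ar Z) (p q : ℕ → S.M), Enum S p ∧ x = code S p ∧ Function.Injective q ∧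
    y = code S q}

/-- `A` contains with the code of `p` the codes of all infinite closed substructures which contain
the first `m` points, in the enumerations which fix these points. -/
def ClosedOver (m : ℕ) (A : Set (Code ι ar Z)) : Prop :=
  ∀ (S : MS ι ar Z) (p q : ℕ → S.M), Enum S p → code S p ∈ A → Function.Injective q →
    (∀ i < m, q i = p i) → code S q ∈ A

end code

/-- Analytic sets: the empty set and the images of Borel maps defined on the Baire space. -/
def IsAnalytic {X : Type} [MeasurableSpace X] (A : Set X) : Prop :=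
  A = ∅ ∨ ∃ f : (ℕ → ℕ) → X, Measurable f ∧ range f = A

/-! ### Discrete structures (definitions of H41/HI/Hand) -/

/-- Structures on the natural numbers: a label in `C` for every `r`-tuple. -/
abbrev Structure (r : ℕ) (C : Type) : Type := (Fin r → ℕ) → C

/-- `g` is an isomorphism from the structure `x` onto the structure `y`. -/
def IsIsomorphism {r : ℕ} {C : Type} (x y : Structure r C) (g : Equiv.Perm ℕ) : Prop :=
  ∀ a : Fin r → ℕ, y (g ∘ a) = x a

/-- `A` contains structures of only countably many isomorphism types. -/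
def CountablyManyTypes {r : ℕ} {C : Type} (A : Set (Structure r C)) : Prop :=
  ∃ D : Set (Structure r C), D.Countable ∧ ∀ x ∈ A, ∃ y ∈ D, ∃ g, IsIsomorphism x y g

/-- `A` contains structures of perfectly many isomorphism types. -/
def PerfectlyManyTypes {r : ℕ} {C : Type} [MeasurableSpace C] (A : Set (Structure r C)) : Prop :=
  ∃ F : (ℕ → Bool) → Structure r C, Measurable F ∧ (∀ u, F u ∈ A) ∧
    ∀ u v, u ≠ v → ¬ ∃ g, IsIsomorphism (F u) (F v) g

/-- The structures which `x` induces on infinite sets. -/
def Substructures {r : ℕ} {C : Type} (x : Structure r C) : Set (Structure r C) :=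
  {y | ∃ f : ℕ → ℕ, Function.Injective f ∧ y = fun a => x (f ∘ a)}

/-- `A` is closed under infinite substructures that contain the points less than `m`. -/
def ClosedOverD {r : ℕ} {C : Type} (m : ℕ) (A : Set (Structure r C)) : Prop :=
  ∀ x ∈ A, ∀ f : ℕ → ℕ, Function.Injective f → (∀ i < m, f i = i) → (fun a => x (f ∘ a)) ∈ A

/-- Structures of all arities on the natural numbers. -/
abbrev ListStructure (C : Type) : Type := List ℕ → C

/-- `x` and `y` are isomorphic structures of all arities. -/
def Isomorphic {C : Type} (x y : ListStructure C) : Prop :=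
  ∃ g : Equiv.Perm ℕ, ∀ l : List ℕ, y (l.map g) = x l

/-- Borel sets of structures of all arities which depend on a finite set of points. -/
def FinitelySupported {C : Type} [MeasurableSpace C] (A : Set (ListStructure C)) : Prop :=
  MeasurableSet A ∧ ∃ F : Finset ℕ, ∀ x y : ListStructure C,
    (∀ l : List ℕ, (∀ i ∈ l, i ∈ F) → x l = y l) → (x ∈ A ↔ y ∈ A)

/-! ### The discrete theorems (parts (1) to (4) of the theorem HereditaryClasses) -/

/-- (1) -/
def D1 (r : ℕ) : Prop := ∀ (C : Type) [MeasurableSpace C] [StandardBorelSpace C]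
  (X : Set (Structure r C)), IsAnalytic X → CountablyManyTypes X ∨ PerfectlyManyTypes X ∨
    ¬ CountablyManyTypes {x ∈ X | PerfectlyManyTypes (Substructures x)}

/-- (2) -/
def D2 (r : ℕ) : Prop := ∀ (C : Type) [MeasurableSpace C] [StandardBorelSpace C] (k : ℕ → ℕ)
  (Y : ℕ → Set (Structure r C)), (∀ n, IsAnalytic (Y n) ∧ ClosedOverD (k n) (Y n)) →
    CountablyManyTypes (⋃ n, Y n) ∨ PerfectlyManyTypes (⋃ n, Y n)

/-- (3) -/
def D3 (r : ℕ) : Prop := ∀ (C : Type) [MeasurableSpace C] [StandardBorelSpace C]
  (x : Structure r C), CountablyManyTypes (Substructures x) ∨ PerfectlyManyTypes (Substructures x)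

/-- (4) -/
def D4 : Prop := ∀ (C : Type) [MeasurableSpace C] [StandardBorelSpace C]
  (X : Set (ListStructure C)),
  (∃ A : ℕ → ℕ → Set (ListStructure C), (∀ n j, FinitelySupported (A n j)) ∧
    X = ⋃ n, ⋂ j, A n j) →
  (∀ x ∈ X, ∀ y, Isomorphic x y → y ∈ X) →
    (∃ D : Set (ListStructure C), D.Countable ∧ ∀ x ∈ X, ∃ y ∈ D, Isomorphic x y) ∨
    ∃ F : (ℕ → Bool) → ListStructure C, Measurable F ∧ (∀ u, F u ∈ X) ∧
      ∀ u v, u ≠ v → ¬ Isomorphic (F u) (F v)

/-! ### The discrete form of a code -/

/-- The code as a discrete structure of arity `r + 2`. -/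
def til {ι : Type} {ar : ι → ℕ} {Z : Type} (r : ℕ) (hr : ∀ i, ar i ≤ r) (x : Code ι ar Z) :
    Structure (r + 2) (ℝ × (ι → Z)) :=
  fun a => (x.1 (a 0) (a 1), fun i => x.2 i fun j : Fin (ar i) =>
    a ⟨(j : ℕ) + 2, by have := j.2; have := hr i; omega⟩)

/-- Back. -/
def dec {ι : Type} {ar : ι → ℕ} {Z : Type} (r : ℕ) (y : Structure (r + 2) (ℝ × (ι → Z))) :
    Code ι ar Z :=
  (fun i j => (y fun t => if (t : ℕ) = 0 then i else if (t : ℕ) = 1 then j else 0).1,
    fun i a => (y fun t => if h : (t : ℕ) - 2 < ar i then a ⟨(t : ℕ) - 2, h⟩ else 0).2 i)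

/-- The code as a structure of all arities (`c` is an arbitrary label for the empty list). -/
def tilL {ι : Type} {ar : ι → ℕ} {Z : Type} (c : ι → Z) (x : Code ι ar Z) :
    ListStructure (ℝ × (ι → Z))
  | [] => (0, c)
  | h :: t => (x.1 h (t.headD h), fun i => x.2 i fun j : Fin (ar i) => (h :: t).getD (j : ℕ) h)

/-- Back. -/
def decL {ι : Type} {ar : ι → ℕ} {Z : Type} (y : ListStructure (ℝ × (ι → Z))) : Code ι ar Z :=
  (fun i j => (y [i, j]).1,
    fun i a => if ar i = 0 then (y [0]).2 i else (y (List.ofFn a)).2 i)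

/-- `r u i` is a locally constant function of `u`. -/
def LC {M : Type} (r : (ℕ → Bool) → ℕ → M) : Prop :=
  ∀ (i : ℕ) (u : ℕ → Bool), ∃ N : ℕ, ∀ v : ℕ → Bool, (∀ j < N, v j = u j) → r v i = r u i

/-- The finitely supported part of a closed set of codes: the restriction to the points in `F` is a
limit of restrictions of elements of `A`. -/
def cyl {ι : Type} {ar : ι → ℕ} {Z : Type} [TopologicalSpace Z] (F : Finset ℕ)
    (A : Set (Code ι ar Z)) : Set (Code ι ar Z) :=
  {x | ∀ (I : Finset ι) (U : Set (Code ι ar Z)), IsOpen U → x ∈ U →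
    (∀ y z : Code ι ar Z, (∀ i ∈ F, ∀ j ∈ F, y.1 i j = z.1 i j) →
      (∀ i ∈ I, ∀ a : Fin (ar i) → ℕ, (∀ j, a j ∈ F) → y.2 i a = z.2 i a) → (y ∈ U ↔ z ∈ U)) →
    (U ∩ A).Nonempty}

end Pool.Agent.H77.PM
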