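import Pool.Agent.H55.PM.Targets

/-!
SQ (board pm_modules): least loaded assignment.
-/

set_option autoImplicit false

open Finset

namespace Pool.Agent.H77.PM

open Pool.Agent.H55.PM

/-- an element of `Av t` of least load -/
noncomputable def pick (Av : ℕ → Finset ℕ) (t₀ : ℕ) (f : ℕ → ℕ) (t : ℕ) : ℕ := by
  classical
  exact if h : (Av t).Nonempty then
    Classical.choose (Finset.exists_min_image (Av t) (load f t₀ t) h) else 0

theorem pick_spec (Av : ℕ → Finset ℕ) (t₀ : ℕ) (f : ℕ → ℕ) (t : ℕ) (h : (Av t).Nonempty) :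
    pick Av t₀ f t ∈ Av t ∧ ∀ b ∈ Av t, load f t₀ t (pick Av t₀ f t) ≤ load f t₀ t b := by
  unfold pick
  rw [dif_pos h]
  exact Classical.choose_spec (Finset.exists_min_image (Av t) (load f t₀ t) h)

/-- the assignment up to time `t` -/
noncomputable def FF (Av : ℕ → Finset ℕ) (t₀ : ℕ) : ℕ → ℕ → ℕ
  | 0 => fun _ => 0
  | t + 1 => Function.update (FF Av t₀ t) t (pick Av t₀ (FF Av t₀ t) t)

/-- the assignment -/
noncomputable def ss (Av : ℕ → Finset ℕ) (t₀ : ℕ) (t : ℕ) : ℕ := FF Av t₀ (t + 1) t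

theorem FF_eq (Av : ℕ → Finset ℕ) (t₀ : ℕ) (t u : ℕ) (h : u < t) : FF Av t₀ t u = ss Av t₀ u := by
  induction t with
  | zero => omega
  | succ t ih =>
    rcases Nat.lt_succ_iff_lt_or_eq.1 h with h' | h'
    · show Function.update (FF Av t₀ t) t _ u = _
      rw [Function.update_of_ne (by omega), ih h']
    · subst h'; rfl

theorem load_congr (f g : ℕ → ℕ) (t₀ t a : ℕ) (h : ∀ u < t, f u = g u) :
    load f t₀ t a = load g t₀ t a := by
  unfold load
  congr 1
  refine Finset.filter_congr fun u hu => ?_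
  rw [h u (Finset.mem_Ico.1 hu).2]

theorem ss_eq (Av : ℕ → Finset ℕ) (t₀ t : ℕ) :
    ss Av t₀ t = pick Av t₀ (FF Av t₀ t) t := by
  show Function.update (FF Av t₀ t) t _ t = _
  rw [Function.update_self]

theorem pf_sq : T_SQ := by
  intro Av t₀ hne
  refine ⟨ss Av t₀, fun t ht => ?_, fun t ht => ?_⟩
  · rw [ss_eq]
    exact (pick_spec Av t₀ _ t (hne t ht)).1
  · have h1 := (pick_spec Av t₀ (FF Av t₀ t) t (hne t ht)).2
    have hl : ∀ a, load (FF Av t₀ t) t₀ t a = load (ss Av t₀) t₀ t a := fun a =>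
      load_congr _ _ t₀ t a fun u hu => FF_eq Av t₀ t u hu
    rw [← ss_eq] at h1
    simp only [hl] at h1
    calc (Av t).card * load (ss Av t₀) t₀ t (ss Av t₀ t)
        = ∑ _b ∈ Av t, load (ss Av t₀) t₀ t (ss Av t₀ t) := by
          rw [Finset.sum_const, smul_eq_mul]
      _ ≤ ∑ b ∈ Av t, load (ss Av t₀) t₀ t b := Finset.sum_le_sum h1
      _ = (((Ico t₀ t)).filter fun u => ss Av t₀ u ∈ Av t).card := by
          unfold load
          have hm : ∀ u ∈ (Ico t₀ t).filter (fun u => ss Av t₀ u ∈ Av t), ss Av t₀ u ∈ Av t :=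
            fun u hu => (Finset.mem_filter.1 hu).2
          rw [Finset.card_eq_sum_card_fiberwise (f := ss Av t₀) hm]
          refine Finset.sum_congr rfl fun b hb => ?_
          congr 1
          ext u
          simp only [Finset.mem_filter, Finset.mem_Ico]
          constructor
          · rintro ⟨h, h'⟩
            exact ⟨⟨h, h' ▸ hb⟩, h'⟩
          · rintro ⟨⟨h, _⟩, h'⟩
            exact ⟨h, h'⟩
      _ ≤ (Ico t₀ t).card := Finset.card_filter_le _ _
      _ ≤ t := by rw [Nat.card_Ico]; omega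

end Pool.Agent.H77.PM
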