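import Pool.Agent.H77.PM.Defs

/-!
# MP_5607ba_lc: hereditary classes of Polish metric structures. Targets.
-/

set_option autoImplicit false

open Set Filter Topology

namespace Pool.Agent.H77.PM

/-! ### A. Metric spaces with infinitely many distances -/

/-- (REC) a free infinite set. -/
def T_REC : Prop := ∀ (B : ℕ) (R : ℕ → ℕ → ℕ → Prop) (Q : Finset ℕ → ℕ → Prop),
  (∀ l l', {k | R k l l'}.encard ≤ B) → (∀ k l l', R k l l' → R k l' l) →
  (∀ k l l', R k l l → R k l l') → (∀ K, ∀ᶠ e in (hyperfilter ℕ : Filter ℕ), Q K e) →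
  ∃ K : ℕ → ℕ, StrictMono K ∧ (∀ k l l', l ≠ k → l' ≠ k → ¬ R (K k) (K l) (K l')) ∧
    ∀ n, Q ((Finset.range n).image K) (K n)

/-- (SEP) a sequence in a complete space converges along the ultrafilter or is separated. -/
def T_SEP : Prop := ∀ (M : Type) [MetricSpace M] [CompleteSpace M] (x : ℕ → M),
  (∃ p, Tendsto x (hyperfilter ℕ : Filter ℕ) (𝓝 p)) ∨
    ∃ ε : ℝ, 0 < ε ∧ ∀ z, ∀ᶠ k in (hyperfilter ℕ : Filter ℕ), ε ≤ dist (x k) z

/-- (CLO) closed countable sets. -/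
def T_CLO : Prop := ∀ (M : Type) [MetricSpace M] (x : ℕ → M) (s : Set ℕ),
  ((∃ ε : ℝ, 0 < ε ∧ ∀ m n, m ≠ n → ε ≤ dist (x m) (x n)) → IsClosed (x '' s)) ∧
    ∀ p, Tendsto x atTop (𝓝 p) → IsClosed (insert p (x '' s))

/-- (SEL) pairs `x k`, `y k`, whose distances do not occur in the set of the other points. -/
def T_SEL : Prop := ∀ (M : Type) [MetricSpace M] [CompleteSpace M] (W : Finset M),
  (range fun ab : M × M => dist ab.1 ab.2).Infinite →
  ∃ (W' : Finset M) (x y : ℕ → M), W ⊆ W' ∧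
    (∀ s : Set ℕ, IsClosed ((W' : Set M) ∪ x '' s ∪ y '' s)) ∧
    ∀ k a b, (a ∈ W' ∨ ∃ l, l ≠ k ∧ (a = x l ∨ a = y l)) →
      (b ∈ W' ∨ ∃ l, l ≠ k ∧ (b = x l ∨ b = y l)) → dist a b ≠ dist (x k) (y k)

/-- (INJ) from enumerations with repetitions to injective enumerations. -/
def T_INJ : Prop := ∀ (M : Type) (m : ℕ) (p : ℕ → M) (r : (ℕ → Bool) → ℕ → M),
  Function.Injective p → (∀ u, (range (r u)).Infinite) → (∀ u, ∀ i < m, r u i = p i) → LC r →
  ∃ q : (ℕ → Bool) → ℕ → M, (∀ u, Function.Injective (q u)) ∧ (∀ u, range (q u) = range (r u)) ∧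
    (∀ u, ∀ i < m, q u i = p i) ∧ LC q

/-- (FAM) a perfect family of closed sets which are not isometric. -/
def T_FAM : Prop := ∀ (M : Type) [MetricSpace M] [CompleteSpace M] (p : ℕ → M) (m : ℕ),
  Function.Injective p → (range fun ab : M × M => dist ab.1 ab.2).Infinite →
  ∃ q : (ℕ → Bool) → ℕ → M, LC q ∧ (∀ u, Function.Injective (q u)) ∧
    (∀ u, IsClosed (range (q u))) ∧ (∀ u, ∀ i < m, q u i = p i) ∧
    ∀ u v, u ≠ v → ¬ ∃ e : Equiv.Perm ℕ, ∀ i j, dist (q v (e i)) (q v (e j)) = dist (q u i) (q u j)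

/-! ### B. Codes -/

/-- (SUBC) the code of an injective sequence is the code of a structure. -/
def T_SUBC : Prop := ∀ (ι : Type) (ar : ι → ℕ) (Z : Type) [TopologicalSpace Z] (S : MS ι ar Z)
  (q : ℕ → S.M), Function.Injective q → ∃ T : MS ι ar Z, IsCode T (code S q)

/-- (SAM) isomorphisms between structures enumerated completely. -/
def T_SAM : Prop := ∀ (ι : Type) (ar : ι → ℕ) (Z : Type) [TopologicalSpace Z] (S T : MS ι ar Z)
  (q : ℕ → S.M) (q' : ℕ → T.M), Function.Injective q → IsClosed (range q) →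
  Function.Injective q' → IsClosed (range q') → Same (code S q) (code T q') →
  ∃ e : Equiv.Perm ℕ, (∀ i j, dist (q' (e i)) (q' (e j)) = dist (q i) (q j)) ∧
    ∀ i a, T.f i (q' ∘ e ∘ a) = S.f i (q ∘ a)

/-- (CLF) sets with finitely many distances are closed. -/
def T_CLF : Prop := ∀ (M : Type) [MetricSpace M] (q : ℕ → M),
  {d : ℝ | ∃ i j, dist (q i) (q j) = d}.Finite → IsClosed (range q)

/-- (MEA) measurability. -/
def T_MEA : Prop := ∀ (ι : Type) (ar : ι → ℕ) (Z : Type) [TopologicalSpace Z] [MeasurableSpace Z]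
  (S : MS ι ar Z) (q : (ℕ → Bool) → ℕ → S.M), LC q → Measurable fun u => code S (q u)

/-- (PER) perfectly many closed substructures. -/
def T_PER : Prop := ∀ (ι : Type) (ar : ι → ℕ) (Z : Type) [TopologicalSpace Z] [MeasurableSpace Z]
  (S : MS ι ar Z) (p : ℕ → S.M) (m : ℕ) (A : Set (Code ι ar Z)), Function.Injective p →
  (range fun ab : S.M × S.M => dist ab.1 ab.2).Infinite →
  (∀ q, Function.Injective q → (∀ i < m, q i = p i) → code S q ∈ A) → PerfectlyMany A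

/-! ### C. Bounded arity -/

/-- (TIL) the discrete form of a code. -/
def T_TIL : Prop := ∀ (ι : Type) (ar : ι → ℕ) (Z : Type) [MeasurableSpace Z] (r : ℕ)
  (hr : ∀ i, ar i ≤ r),
  (∀ x : Code ι ar Z, dec r (til r hr x) = x) ∧
  (∀ (x : Code ι ar Z) (g : ℕ → ℕ), til r hr (re x g) = fun a => til r hr x (g ∘ a)) ∧
  Measurable (til (Z := Z) r hr) ∧ Measurable (dec (ι := ι) (ar := ar) (Z := Z) r)

/-- (ISA) isomorphic codes with finitely many distances have isomorphic discrete forms. -/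
def T_ISA : Prop := ∀ (ι : Type) (ar : ι → ℕ) (Z : Type) [TopologicalSpace Z] (r : ℕ)
  (hr : ∀ i, ar i ≤ r) (x y : Code ι ar Z), FD x → Same x y →
  FD y ∧ ∃ g, IsIsomorphism (til r hr x) (til r hr y) g

/-- (ISB) a discrete structure which is isomorphic to the discrete form of a code. -/
def T_ISB : Prop := ∀ (ι : Type) (ar : ι → ℕ) (Z : Type) [TopologicalSpace Z] (r : ℕ)
  (hr : ∀ i, ar i ≤ r) (S : MS ι ar Z) (x : Code ι ar Z)
  (z : Structure (r + 2) (ℝ × (ι → Z))) (g : Equiv.Perm ℕ), IsCode S x →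
  IsIsomorphism (til r hr x) z g → IsCode S (dec r z) ∧ Same x (dec r z) ∧
    z = til r hr (dec r z)

/-- (MFD) the set of the codes with finitely many distances is Borel. -/
def T_MFD : Prop := ∀ (ι : Type) (ar : ι → ℕ) (Z : Type) [MeasurableSpace Z],
  MeasurableSet {x : Code ι ar Z | FD x}

/-- (ANA) analytic sets. -/
def T_ANA : Prop := ∀ (X Y : Type) [MeasurableSpace X] [MeasurableSpace Y] (A B : Set X)
  (g : X → Y), IsAnalytic A → MeasurableSet B → Measurable g → IsAnalytic (g '' (A ∩ B))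

/-- Part (1) of the theorem for Polish metric structures. -/
def P1 (r : ℕ) : Prop := ∀ (ι : Type) [Countable ι] (ar : ι → ℕ), (∀ i, ar i ≤ r) →
  ∀ (Z : Type) [TopologicalSpace Z] [PolishSpace Z] [MeasurableSpace Z] [BorelSpace Z]
  (X : Set (Code ι ar Z)), IsAnalytic X → (∀ x ∈ X, ∃ S, IsCode S x) →
  CountablyMany X ∨ PerfectlyMany X ∨ ¬ CountablyMany {x ∈ X | PerfectlyMany (Sub x)}

/-- Part (2). -/
def P2 (r : ℕ) : Prop := ∀ (ι : Type) [Countable ι] (ar : ι → ℕ), (∀ i, ar i ≤ r) →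
  ∀ (Z : Type) [TopologicalSpace Z] [PolishSpace Z] [MeasurableSpace Z] [BorelSpace Z]
  (k : ℕ → ℕ) (Y : ℕ → Set (Code ι ar Z)),
  (∀ n, IsAnalytic (Y n) ∧ (∀ x ∈ Y n, ∃ S, IsCode S x) ∧ ClosedOver (k n) (Y n)) →
  CountablyMany (⋃ n, Y n) ∨ PerfectlyMany (⋃ n, Y n)

/-- Part (3). -/
def P3 (r : ℕ) : Prop := ∀ (ι : Type) [Countable ι] (ar : ι → ℕ), (∀ i, ar i ≤ r) →
  ∀ (Z : Type) [TopologicalSpace Z] [PolishSpace Z] [MeasurableSpace Z] [BorelSpace Z]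
  (x : Code ι ar Z), (∃ S, IsCode S x) → CountablyMany (Sub x) ∨ PerfectlyMany (Sub x)

/-- Part (4). -/
def P4 : Prop := ∀ (ι : Type) [Countable ι] (ar : ι → ℕ)
  (Z : Type) [TopologicalSpace Z] [PolishSpace Z] [MeasurableSpace Z] [BorelSpace Z]
  (X : Set (Code ι ar Z)), (∀ x ∈ X, ∃ S, IsCode S x) →
  (∃ C : ℕ → Set (Code ι ar Z), (∀ n, IsClosed (C n)) ∧
    ∀ x, (∃ S, IsCode S x) → (x ∈ X ↔ ∃ n, x ∈ C n)) →
  (∀ x ∈ X, ∀ y, Same x y → y ∈ X) → CountablyMany X ∨ PerfectlyMany X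

/-- (ONE) -/
def T_ONE : Prop := ∀ r, D1 (r + 2) → P1 r

/-- (TWO) -/
def T_TWO : Prop := ∀ r, D2 (r + 2) → P2 r

/-- (THR) -/
def T_THR : Prop := ∀ r, D3 (r + 2) → P3 r

/-! ### D. All arities -/

/-- (TLL) the list form of a code. -/
def T_TLL : Prop := ∀ (ι : Type) (ar : ι → ℕ) (Z : Type) [MeasurableSpace Z] (c : ι → Z),
  (∀ x : Code ι ar Z, decL (tilL c x) = x) ∧
  (∀ (x : Code ι ar Z) (g : ℕ → ℕ) (l : List ℕ), tilL c (re x g) l = tilL c x (l.map g)) ∧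
  Measurable (tilL (ar := ar) c) ∧ Measurable (decL (ι := ι) (ar := ar) (Z := Z))

/-- (ISL) isomorphisms of the list forms. -/
def T_ISL : Prop := ∀ (ι : Type) (ar : ι → ℕ) (Z : Type) [TopologicalSpace Z] (c : ι → Z)
  (x : Code ι ar Z),
  (∀ y, FD x → Same x y → Isomorphic (tilL c x) (tilL c y)) ∧
  ∀ (S : MS ι ar Z) (z : ListStructure (ℝ × (ι → Z))), IsCode S x → Isomorphic (tilL c x) z →
    IsCode S (decL z) ∧ Same x (decL z) ∧ z = tilL c (decL (ar := ar) z)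

/-- (BAI) the Baire category theorem for permutations. -/
def T_BAI : Prop := ∀ E : ℕ → Set (Equiv.Perm ℕ),
  (∀ n g, (∀ N, ∃ g' ∈ E n, ∀ i < N, g' i = g i) → g ∈ E n) → (∀ g, ∃ n, g ∈ E n) →
  ∃ (n m : ℕ) (g₀ : Equiv.Perm ℕ), ∀ g : Equiv.Perm ℕ, (∀ i < m, g i = g₀ i) → g ∈ E n

/-- (DEN) from dense sequences to all sequences. -/
def T_DEN : Prop := ∀ (ι : Type) (ar : ι → ℕ) (Z : Type) [TopologicalSpace Z] (S : MS ι ar Z)
  (p : ℕ → S.M) (C : Set (Code ι ar Z)) (m : ℕ) (g₀ : Equiv.Perm ℕ), Enum S p → IsClosed C →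
  (∀ g : Equiv.Perm ℕ, (∀ i < m, g i = g₀ i) → code S (p ∘ g) ∈ C) →
  ∀ q : ℕ → S.M, Function.Injective q → (∀ i < m, q i = p (g₀ i)) → code S q ∈ C

/-- (CYL) closed sets are intersections of finitely supported closed sets. -/
def T_CYL : Prop := ∀ (ι : Type) (ar : ι → ℕ) (Z : Type) [TopologicalSpace Z]
  (A : Set (Code ι ar Z)),
  (∀ F, IsClosed (cyl F A) ∧ A ⊆ cyl F A) ∧
  (∀ F (x y : Code ι ar Z), (∀ i ∈ F, ∀ j ∈ F, x.1 i j = y.1 i j) →
    (∀ i, ∀ a : Fin (ar i) → ℕ, (∀ j, a j ∈ F) → x.2 i a = y.2 i a) →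
      (x ∈ cyl F A ↔ y ∈ cyl F A)) ∧
  (IsClosed A → ∀ x, (∀ F, x ∈ cyl F A) → x ∈ A)

/-- (MET) the codes with finitely many distances. -/
def T_MET : Prop := ∀ (ι : Type) (ar : ι → ℕ) (Z : Type) [TopologicalSpace Z]
  (x : Code ι ar Z), FD x → ((∃ S, IsCode S x) ↔ (∀ i, x.1 i i = 0) ∧
    (∀ i j, x.1 i j = 0 → i = j) ∧ (∀ i j, x.1 i j = x.1 j i) ∧
    ∀ i j k, x.1 i k ≤ x.1 i j + x.1 j k)

/-- (SIG) the discrete forms of a class of codes with finitely many distances. -/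
def T_SIG : Prop := ∀ (ι : Type) [Countable ι] (ar : ι → ℕ)
  (Z : Type) [TopologicalSpace Z] [PolishSpace Z] [MeasurableSpace Z] [BorelSpace Z]
  (c : ι → Z) (C : ℕ → Set (Code ι ar Z)), (∀ n, IsClosed (C n)) →
  ∃ A : ℕ → ℕ → Set (ListStructure (ℝ × (ι → Z))), (∀ n j, FinitelySupported (A n j)) ∧
    ∀ y, y ∈ (⋃ n, ⋂ j, A n j) ↔
      ∃ x, FD x ∧ (∃ S, IsCode S x) ∧ (∃ n, x ∈ C n) ∧ y = tilL c x

/-- (FOUR) -/
def T_FOUR : Prop := D4 → P4

end Pool.Agent.H77.PM
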